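import Pool.Agent.Lib.H49R.DD
import Pool.Agent.Lib.H49D.B0

set_option autoImplicit false

/-!
Calculus of `SmallP` and `AuxP`.
-/

open MvPolynomial Real MeasureTheory

namespace Pool.Agent.H49R

open Pool.Agent.H89T Pool.Agent.H78G Pool.Agent.H67T Pool.Agent.H53Y Pool.Agent.H49D Pool.Agent.H53R

variable {β : Type} [Fintype β] {m : β → ℕ} {w : (s : β) → ℂ → Fin (m s + 1) → ℂ}

theorem err_pos (s : β) (r R : ℝ) : 0 ≤ err (w s) r R :=
  zero_le_one.trans (NS2_err_ge (w s) r R)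

theorem err_le_sum (s : β) (r R : ℝ) : err (w s) r R ≤ ∑ s, err (w s) r R :=
  Finset.single_le_sum (f := fun s => err (w s) r R) (fun s _ => err_pos s r R) (Finset.mem_univ s)

theorem one_le_sum_err [Nonempty β] (r R : ℝ) : 1 ≤ ∑ s, err (w s) r R :=
  (NS2_err_ge (w (Classical.arbitrary β)) r R).trans (err_le_sum _ r R)

/-- From one curve to all of them. -/
theorem Small_toP {s : β} {h : ℂ → ℝ} (hs : Small (w s) h) : SmallP w h := by
  obtain ⟨g, h1, h2, C, hC, h3⟩ := hs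
  exact ⟨g, h1, h2, C, hC, fun r R hr hR => (h3 r R hr hR).trans
    (mul_le_mul_of_nonneg_left (err_le_sum s r R) hC)⟩

theorem smallP_const [Nonempty β] (c : ℝ) : SmallP w fun _ => c :=
  Small_toP (s := Classical.arbitrary β) (small_const c)

theorem SmallP.add {f g : ℂ → ℝ} (hf : SmallP w f) (hg : SmallP w g) :
    SmallP w fun z => f z + g z := by
  obtain ⟨f', hf1, hf2, C, hC, hf3⟩ := hf
  obtain ⟨g', hg1, hg2, C', hC', hg3⟩ := hg
  refine ⟨fun z => f' z + g' z, fun z => add_le_add (hf1 z) (hg1 z),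
    fun r => (hf2 r).add (hg2 r), C + C', add_nonneg hC hC', fun r R hr hR => ?_⟩
  rw [circleAverage_fun_add (hf2 r) (hg2 r), add_mul]
  exact add_le_add (hf3 r R hr hR) (hg3 r R hr hR)

theorem SmallP.smul {f : ℂ → ℝ} (a : ℕ) (hf : SmallP w f) : SmallP w fun z => (a : ℝ) * f z := by
  obtain ⟨f', hf1, hf2, C, hC, hf3⟩ := hf
  refine ⟨fun z => (a : ℝ) * f' z, fun z => mul_le_mul_of_nonneg_left (hf1 z) (Nat.cast_nonneg a),
    fun r => (NS2_mul (a : ℝ) ⟨hf2 r, rfl⟩).1, a * C, mul_nonneg (Nat.cast_nonneg a) hC,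
    fun r R hr hR => ?_⟩
  rw [(NS2_mul (a : ℝ) (⟨hf2 r, rfl⟩ : NS2_Avg r f' _)).2, mul_assoc]
  exact mul_le_mul_of_nonneg_left (hf3 r R hr hR) (Nat.cast_nonneg a)

theorem SmallP.sum [Nonempty β] {κ : Type} (s : Finset κ) {f : κ → ℂ → ℝ}
    (hf : ∀ i ∈ s, SmallP w (f i)) : SmallP w fun z => ∑ i ∈ s, f i z := by
  classical
  induction s using Finset.induction_on with
  | empty =>
    simp only [Finset.sum_empty]
    exact smallP_const 0
  | insert i s hi ih =>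
    simp only [Finset.sum_insert hi]
    exact (hf i (Finset.mem_insert_self i s)).add
      (ih fun j hj => hf j (Finset.mem_insert_of_mem hj))

theorem AuxP.one [Nonempty β] : AuxP w (fun _ => 1) (fun _ => 1) (fun _ => 0) (fun _ => 0) := by
  refine ⟨⟨differentiable_const _, 0, one_ne_zero⟩, ⟨differentiable_const _, 0, one_ne_zero⟩,
    fun _ => 1, fun _ => 0, differentiable_const _, ⟨0, one_ne_zero⟩, smallP_const 0,
    fun z _ => ?_⟩
  simp

theorem AuxP.mul {E₁ E₂ G₁ G₂ : ℂ → ℂ} {κ₁ κ₂ B₁ B₂ : β → ℕ} (h₁ : AuxP w E₁ G₁ κ₁ B₁)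
    (h₂ : AuxP w E₂ G₂ κ₂ B₂) :
    AuxP w (fun z => E₁ z * E₂ z) (fun z => G₁ z * G₂ z) (fun s => κ₁ s + κ₂ s)
      (fun s => B₁ s + B₂ s) := by
  obtain ⟨⟨hE1, hE1'⟩, ⟨hG1, hG1'⟩, F₁, f₁, hF1, hF1', hf1, hb1⟩ := h₁
  obtain ⟨⟨hE2, hE2'⟩, ⟨hG2, hG2'⟩, F₂, f₂, hF2, hF2', hf2, hb2⟩ := h₂
  have hE := exists_mul_ne hE1 hE1' hE2 hE2'
  have hG := exists_mul_ne hG1 hG1' hG2 hG2'
  have hF := exists_mul_ne hF1 hF1' hF2 hF2'
  have hEd := hE1.fun_mul hE2
  have hGd := hG1.fun_mul hG2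
  have hFd := hF1.fun_mul hF2
  refine ⟨⟨hEd, hE⟩, ⟨hGd, hG⟩, fun z => (F₁ z * F₂ z) * ((E₁ z * E₂ z) * (G₁ z * G₂ z)),
    fun z => f₁ z + f₂ z, hFd.fun_mul (hEd.fun_mul hGd),
    exists_mul_ne hFd hF (hEd.fun_mul hGd) (exists_mul_ne hEd hE hGd hG), hf1.add hf2,
    fun z hz => ?_⟩
  simp only [ne_eq, mul_eq_zero, not_or] at hz
  obtain ⟨⟨hz1, hz2⟩, ⟨hz3, hz4⟩, hz5, hz6⟩ := hz
  have h1 := hb1 z hz1
  have h2 := hb2 z hz2
  rw [norm_mul, norm_mul, Real.log_mul (norm_ne_zero_iff.2 hz3) (norm_ne_zero_iff.2 hz4),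
    Real.log_mul (norm_ne_zero_iff.2 hz5) (norm_ne_zero_iff.2 hz6)]
  have e1 : ∑ s, ((κ₁ s + κ₂ s : ℕ) : ℝ) * log ‖w s z‖ =
      ∑ s, (κ₁ s : ℝ) * log ‖w s z‖ + ∑ s, (κ₂ s : ℝ) * log ‖w s z‖ := by
    rw [← Finset.sum_add_distrib]
    refine Finset.sum_congr rfl fun s _ => ?_
    push_cast
    ring
  have e2 : ∑ s, ((B₁ s + B₂ s : ℕ) : ℝ) * log ‖w s z‖ =
      ∑ s, (B₁ s : ℝ) * log ‖w s z‖ + ∑ s, (B₂ s : ℝ) * log ‖w s z‖ := by
    rw [← Finset.sum_add_distrib]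
    refine Finset.sum_congr rfl fun s _ => ?_
    push_cast
    ring
  rw [e1, e2]
  linarith

theorem AuxP.prod [Nonempty β] {κ : Type} (t : Finset κ) {E G : κ → ℂ → ℂ} {a b : κ → β → ℕ}
    (h : ∀ i ∈ t, AuxP w (E i) (G i) (a i) (b i)) :
    AuxP w (fun z => ∏ i ∈ t, E i z) (fun z => ∏ i ∈ t, G i z) (fun s => ∑ i ∈ t, a i s)
      (fun s => ∑ i ∈ t, b i s) := by
  classical
  induction t using Finset.induction_on with
  | empty =>
    simp only [Finset.prod_empty, Finset.sum_empty]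
    exact AuxP.one
  | insert i t hi ih =>
    simp only [Finset.prod_insert hi, Finset.sum_insert hi]
    exact (h i (Finset.mem_insert_self i t)).mul
      (ih fun j hj => h j (Finset.mem_insert_of_mem hj))

theorem AuxP.pow [Nonempty β] {E G : ℂ → ℂ} {κ B : β → ℕ} (h : AuxP w E G κ B) (a : ℕ) :
    AuxP w (fun z => E z ^ a) (fun z => G z ^ a) (fun s => a * κ s) (fun s => a * B s) := by
  induction a with
  | zero =>
    simp only [pow_zero, zero_mul]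
    exact AuxP.one
  | succ a ih =>
    simp only [pow_succ, Nat.succ_mul]
    exact ih.mul h

/-- From an auxiliary function of one block. -/
theorem Aux_toP [DecidableEq β] {s : β} {E G : ℂ → ℂ} {κ B : ℕ} (h : Aux (w s) E G κ B) :
    AuxP w E G (fun s' => if s' = s then κ else 0) (fun s' => if s' = s then B else 0) := by
  obtain ⟨hE, hG, G₀, f, h1, h2, h3, h4⟩ := h
  refine ⟨hE, hG, G₀, f, h1, h2, Small_toP h3, fun z hz => ?_⟩
  have h5 := h4 z hz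
  have e : ∀ a : ℕ, ∑ s', ((if s' = s then a else 0 : ℕ) : ℝ) * log ‖w s' z‖ = a * log ‖w s z‖ := by
    intro a
    rw [Finset.sum_eq_single s]
    · rw [if_pos rfl]
    · intro s' _ hs'
      rw [if_neg hs', Nat.cast_zero, zero_mul]
    · intro h
      exact absurd (Finset.mem_univ s) h
  rw [e, e]
  exact h5

end Pool.Agent.H49R
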