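import Pool.Agent.Lib.H49R.A1
import Pool.Agent.Lib.H49D.A2

set_option autoImplicit false

/-!
From an auxiliary function to the inequality.
-/

open MvPolynomial Real MeasureTheory

namespace Pool.Agent.H49R

open Pool.Agent.H89T Pool.Agent.H78G Pool.Agent.H67T Pool.Agent.H53Y Pool.Agent.H49D Pool.Agent.H53R

variable {β : Type} [Fintype β] {m : β → ℕ} {w : (s : β) → ℂ → Fin (m s + 1) → ℂ}

/-- Jensen for the auxiliary function, with the averages of all curves `w s`. -/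
theorem core_smallP [Nonempty β] (hw : ∀ s, IsHol (w s)) {E Fy : ℂ → ℂ} {κ B : β → ℕ} {ρ : ℕ}
    (hρ : 1 ≤ ρ) (h : AuxP w E (fun z => Fy z ^ ρ) κ B) (hF : Differentiable ℂ Fy)
    (hord : ∀ (z : ℂ) (k : ℕ), (k : ℕ∞) ≤ analyticOrderAt Fy z →
      ((ρ * (k - 1) : ℕ) : ℕ∞) ≤ analyticOrderAt E z) :
    ∃ C : ℝ, 0 ≤ C ∧ ∀ r R : ℝ, 1 ≤ r → r < R →
      ∑ s, (κ s : ℝ) * chi (w s) r ≤
        ρ * N1 Fy r + ∑ s, (B s : ℝ) * chi (w s) r + C * ∑ s, err (w s) r R := by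
  classical
  obtain ⟨⟨hE, hE0⟩, ⟨hG, hG0⟩, G₀, h₀, hG₀, hG₀0, ⟨g, hle, hg, C, hC, hgC⟩, hmain⟩ := h
  have hF0 : ∃ z, Fy z ≠ 0 := by
    obtain ⟨z, hz⟩ := hG0
    exact ⟨z, fun h0 => hz (by
      change Fy z ^ ρ = 0
      rw [h0, zero_pow (by omega)])⟩
  obtain ⟨K, hK⟩ := jensen_compare (k := ρ) (g := fun _ => Fy) (fun _ => hF)
    (fun _ => hF0) hE hE0 (by
      intro z m' hm'
      have : Nonempty (Fin ρ) := ⟨⟨0, hρ⟩⟩
      obtain ⟨i, hi⟩ := Finite.exists_max m'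
      refine le_trans ?_ (hord z (m' i) (hm' i))
      have h1 : ∑ j, (m' j - 1) ≤ ρ * (m' i - 1) := by
        calc ∑ j, (m' j - 1) ≤ ∑ _j : Fin ρ, (m' i - 1) :=
              Finset.sum_le_sum fun j _ => Nat.sub_le_sub_right (hi j) 1
          _ = ρ * (m' i - 1) := by simp
      exact_mod_cast h1)
  refine ⟨|K| + C, by positivity, fun r R hr hrR => ?_⟩
  have hr0 : r ≠ 0 := by linarith
  have herr := one_le_sum_err (w := w) r R
  obtain ⟨F, hFdef⟩ : ∃ F : ℂ → ℂ, F = fun z => E z * Fy z * G₀ z := ⟨_, rfl⟩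
  have hFd : Differentiable ℂ F := by
    rw [hFdef]
    exact (hE.mul hF).mul hG₀
  have hF0' : ∃ z, F z ≠ 0 := by
    have h1 := eventually_ne_of_entire hE hE0
    have h2 := eventually_ne_of_entire hF hF0
    have h3 := eventually_ne_of_entire hG₀ hG₀0
    obtain ⟨z, hz1, hz2, hz3⟩ := (h1.and (h2.and h3)).exists
    refine ⟨z, ?_⟩
    rw [hFdef]
    exact mul_ne_zero (mul_ne_zero hz1 hz2) hz3
  have hAE : NS2_Avg r (fun z => log ‖E z‖) (circleAverage (fun z => log ‖E z‖) 0 r) :=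
    ⟨NS2_int_log hE r, rfl⟩
  have hAF : NS2_Avg r (fun z => log ‖Fy z‖)
      (circleAverage (fun z => log ‖Fy z‖) 0 r) := ⟨NS2_int_log hF r, rfl⟩
  have hAy : ∀ a : β → ℕ, NS2_Avg r (fun z => ∑ s, (a s : ℝ) * log ‖w s z‖)
      (∑ s, (a s : ℝ) * chi (w s) r) := fun a =>
    NS2_sum Finset.univ fun s _ => NS2_mul (a s : ℝ)
      (⟨NS2_int_log_y (hw s) r, rfl⟩ : NS2_Avg r (fun z => log ‖w s z‖) (chi (w s) r))
  have hAg : NS2_Avg r g (circleAverage g 0 r) := ⟨hg r, rfl⟩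
  have h1 := NS2_mono hr0 (NS2_add hAE (hAy κ))
    (NS2_add (NS2_add (NS2_mul (ρ : ℝ) hAF) (hAy B)) hAg) hFd hF0' (by
      intro z hz
      have hz' : G₀ z ≠ 0 := by
        rw [hFdef] at hz
        exact right_ne_zero_of_mul hz
      have h2 := hmain z hz'
      change _ ≤ log ‖Fy z ^ ρ‖ + ∑ s, (B s : ℝ) * log ‖w s z‖ + h₀ z at h2
      rw [norm_pow, Real.log_pow] at h2
      have h3 := hle z
      linarith)
  have hJ := hK r hr
  simp only [Finset.sum_const, Finset.card_univ, Fintype.card_fin, nsmul_eq_mul] at hJ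
  have e2 : |K| ≤ |K| * ∑ s, err (w s) r R := le_mul_of_one_le_right (abs_nonneg _) herr
  have e4 := le_abs_self K
  have e5 := hgC r R hr hrR
  have e6 : (|K| + C) * ∑ s, err (w s) r R =
      |K| * ∑ s, err (w s) r R + C * ∑ s, err (w s) r R := add_mul _ _ _
  rw [e6]
  linarith

/-- The coefficients `B` may be increased (`chi (w s) r` is bounded below for `r ≥ 1`). -/
theorem weakenP [Nonempty β] (hw : ∀ s, IsHol (w s)) {B B' : β → ℕ} (hB : ∀ s, B s ≤ B' s)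
    {C : ℝ} (hC : 0 ≤ C) {S S' : ℝ → ℝ}
    (h : ∀ r R : ℝ, 1 ≤ r → r < R → S' r ≤ S r + ∑ s, (B s : ℝ) * chi (w s) r +
      C * ∑ s, err (w s) r R) :
    ∃ C' : ℝ, 0 ≤ C' ∧ ∀ r R : ℝ, 1 ≤ r → r < R →
      S' r ≤ S r + ∑ s, (B' s : ℝ) * chi (w s) r + C' * ∑ s, err (w s) r R := by
  have hlow : ∀ (s : β) (r : ℝ), 1 ≤ r → -|chi (w s) 1| ≤ chi (w s) r := by
    intro s r hr
    have h1 := chi_mono (hw s) (r := 1) (R := r) one_pos hr
    have h2 := neg_abs_le (chi (w s) 1)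
    linarith
  obtain ⟨K, hK⟩ : ∃ K : ℝ, K = ∑ s, ((B' s : ℝ) - B s) * |chi (w s) 1| := ⟨_, rfl⟩
  have hBB : ∀ s, (0 : ℝ) ≤ (B' s : ℝ) - B s := by
    intro s
    have h4 : (B s : ℝ) ≤ B' s := by exact_mod_cast hB s
    linarith
  have hK0 : 0 ≤ K := by
    rw [hK]
    exact Finset.sum_nonneg fun s _ => mul_nonneg (hBB s) (abs_nonneg _)
  refine ⟨C + K, add_nonneg hC hK0, fun r R hr hrR => ?_⟩
  have h1 := h r R hr hrR
  have h3 := one_le_sum_err (w := w) r R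
  have h5 : ∑ s, (B s : ℝ) * chi (w s) r ≤ ∑ s, (B' s : ℝ) * chi (w s) r + K := by
    rw [hK, ← Finset.sum_add_distrib]
    refine Finset.sum_le_sum fun s _ => ?_
    have h6 : 0 ≤ ((B' s : ℝ) - B s) * (chi (w s) r + |chi (w s) 1|) :=
      mul_nonneg (hBB s) (by linarith [hlow s r hr])
    have h7 : ((B' s : ℝ) - B s) * (chi (w s) r + |chi (w s) 1|) =
        B' s * chi (w s) r + ((B' s : ℝ) - B s) * |chi (w s) 1| - B s * chi (w s) r := by ring
    rw [h7] at h6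
    linarith
  have h8 : K ≤ K * ∑ s, err (w s) r R := le_mul_of_one_le_right hK0 h3
  rw [add_mul]
  linarith

end Pool.Agent.H49R
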