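import Pool.Agent.Lib.H49R.A1
import Pool.Agent.Lib.H49D.B1

set_option autoImplicit false

/-!
The auxiliary function of one factor of large degree.
-/

open MvPolynomial Real MeasureTheory

namespace Pool.Agent.H49R

open Pool.Agent.H89T Pool.Agent.H78G Pool.Agent.H67T Pool.Agent.H53Y Pool.Agent.H49D Pool.Agent.H53R

/-- The curve `w (sb i)` with the factor `i` alone. -/
noncomputable def single {β : Type} {m : β → ℕ} {ι : Type} [Fintype ι] {sb : ι → β} {dg : ι → ℕ}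
    (D : CurveW m ι sb dg) (i : ι) :
    CurveY (m (sb i)) (fun _ : Unit => m (sb i)) Unit (fun _ => ()) (fun _ => dg i) where
  y := D.w (sb i)
  w := fun _ => D.w (sb i)
  eg := fun _ => 1
  F := fun _ => D.F i
  hy := D.hw (sb i)
  hw := fun _ => (D.hw (sb i)).diff
  hwle := fun _ => ⟨1, fun z => by rw [pow_one, one_mul]⟩
  hwge := fun _ => ⟨1, one_pos, fun z => by rw [pow_one, one_mul]⟩
  hw0 := fun _ => D.hw0 (sb i)
  hF := fun _ => D.hF i
  hF0 := fun _ => D.hF0 i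

theorem exists_largeP {β : Type} [Fintype β] [DecidableEq β] {m : β → ℕ} {ι : Type} [Fintype ι]
    {sb : ι → β} {dg : ι → ℕ} (D : CurveW m ι sb dg) (i : ι) (dB : ℕ)
    (h : ∀ c : Fin (m (sb i) + 1), ∃ Q : MvPolynomial (JV (m (sb i)) (m (sb i))) ℂ,
      HasWt dB Q ∧ PropB (cfF (dg i) c (D.F i)) Q ∧
        ∃ z, D.w (sb i) z c ≠ 0 ∧ eval (jetf (m (sb i)) (ch c (D.w (sb i))) z) Q ≠ 0) :
    ∃ E : ℂ → ℂ, AuxP D.w E (D.φ i) (fun s => if s = sb i then dg i else 0)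
        (fun s => if s = sb i then (m (sb i) + 1) * dB else 0) ∧
      ∀ (z : ℂ) (l : ℕ), (l : ℕ∞) ≤ analyticOrderAt (D.φ i) z →
        ((l - m (sb i) : ℕ) : ℕ∞) ≤ analyticOrderAt E z := by
  obtain ⟨E, h1, h2⟩ := exists_large (single D i) () dB h
  have h3 : Aux (D.w (sb i)) E (D.φ i) (1 * dg i) (1 * ((m (sb i) + 1) * dB)) := h1
  rw [one_mul, one_mul] at h3
  exact ⟨E, Aux_toP h3, h2⟩

end Pool.Agent.H49R
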