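import Pool.Agent.Lib.H53R.D0

set_option autoImplicit false

/-!
# H49R: module D (one curve in every block) of H53R (second main theorem on products)

Port of `Lib/H49D` from one curve `y` to independent curves `w s` in the blocks.  `SmallP w h`: `h` is
bounded above by a function all of whose averages over circles are at most a constant times the sum
of the error terms.  `AuxP w E G κ B`: the auxiliary function `E` satisfies
`|E| ∏ |w s| ^ (κ s) ≤ |G| ∏ |w s| ^ (B s) exp h` outside the zeros of an entire function, `h` small.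
-/

open MvPolynomial Real MeasureTheory

namespace Pool.Agent.H49R

open Pool.Agent.H89T Pool.Agent.H78G Pool.Agent.H67T Pool.Agent.H53Y Pool.Agent.H49D Pool.Agent.H53R

section Aux

variable {β : Type} [Fintype β] {m : β → ℕ}

/-- `h` is bounded above by a circle integrable function with small averages. -/
def SmallP (w : (s : β) → ℂ → Fin (m s + 1) → ℂ) (h : ℂ → ℝ) : Prop :=
  ∃ g : ℂ → ℝ, (∀ z, h z ≤ g z) ∧ (∀ r, CircleIntegrable g 0 r) ∧
    ∃ C : ℝ, 0 ≤ C ∧ ∀ r R : ℝ, 1 ≤ r → r < R → circleAverage g 0 r ≤ C * ∑ s, err (w s) r R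

/-- The auxiliary function `E` for the function `G`. -/
def AuxP (w : (s : β) → ℂ → Fin (m s + 1) → ℂ) (E G : ℂ → ℂ) (κ B : β → ℕ) : Prop :=
  (Differentiable ℂ E ∧ ∃ z, E z ≠ 0) ∧ (Differentiable ℂ G ∧ ∃ z, G z ≠ 0) ∧
    ∃ (G₀ : ℂ → ℂ) (h : ℂ → ℝ), Differentiable ℂ G₀ ∧ (∃ z, G₀ z ≠ 0) ∧ SmallP w h ∧
      ∀ z, G₀ z ≠ 0 → log ‖E z‖ + ∑ s, (κ s : ℝ) * log ‖w s z‖ ≤
        log ‖G z‖ + ∑ s, (B s : ℝ) * log ‖w s z‖ + h z

end Aux

section QM

variable {β : Type} [Fintype β] [DecidableEq β] {m : β → ℕ} {ι : Type} [Fintype ι]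
variable {sb : ι → β} {dg : ι → ℕ} {n r : ℕ}

/-- The entire function `∏ s, (w s)_0 ^ (M s) * P (jet of all affine coordinates in the charts 0)`, for
`P` of weight at most `M s` in the jets of the block `s`. -/
noncomputable def QMB (D : CurveW m ι sb dg) (e : Co m ≃ Fin n) (M : β → ℕ)
    (P : MvPolynomial (JV n r) ℂ) (z : ℂ) : ℂ :=
  ∑ μ ∈ P.support, P.coeff μ * (∏ s, D.w s z 0 ^ (M s - wtb e s μ)) *
    ∏ p : JV n r, eta (D.w (e.symm p.1).1) 0 (e.symm p.1).2 (p.2 : ℕ) z ^ μ p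

end QM

end Pool.Agent.H49R
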