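import Pool.Agent.Lib.H49R.DD

set_option autoImplicit false

/-!
The function `QMB`.
-/

open MvPolynomial Real MeasureTheory

namespace Pool.Agent.H49R

open Pool.Agent.H89T Pool.Agent.H78G Pool.Agent.H67T Pool.Agent.H53Y Pool.Agent.H49D Pool.Agent.H53R

variable {β : Type} [Fintype β] [DecidableEq β] {m : β → ℕ} {ι : Type} [Fintype ι]
variable {sb : ι → β} {dg : ι → ℕ} {n r : ℕ}

theorem QMB_diff (D : CurveW m ι sb dg) (e : Co m ≃ Fin n) (M : β → ℕ)
    (P : MvPolynomial (JV n r) ℂ) : Differentiable ℂ (QMB D e M P) := by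
  unfold QMB
  refine Differentiable.fun_sum fun μ _ => ?_
  refine ((Differentiable.fun_finsetProd fun s _ => ((D.hw s).diff 0).pow _).const_mul _).mul ?_
  exact Differentiable.fun_finsetProd fun p _ => (eta_diff (D.hw _).diff 0 _ _).pow _

/-- The product over the jet variables, block by block. -/
theorem prod_wtb {X : Type} [CommMonoid X] (e : Co m ≃ Fin n) (μ : JV n r →₀ ℕ) (x : β → X) :
    ∏ s, x s ^ wtb e s μ = ∏ p : JV n r, x (e.symm p.1).1 ^ (((p.2 : ℕ) + 1) * μ p) := by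
  unfold wtb
  rw [Finset.prod_congr rfl fun s _ => (Finset.prod_pow_eq_pow_sum Finset.univ
    (fun p : JV n r => if (e.symm p.1).1 = s then ((p.2 : ℕ) + 1) * μ p else 0)
    (x s)).symm, Finset.prod_comm]
  refine Finset.prod_congr rfl fun p _ => ?_
  rw [Finset.prod_eq_single (e.symm p.1).1]
  · rw [if_pos rfl]
  · intro s _ hs
    rw [if_neg (Ne.symm hs), pow_zero]
  · intro h
    exact absurd (Finset.mem_univ _) h

theorem QMB_eq (D : CurveW m ι sb dg) (e : Co m ≃ Fin n) {M : β → ℕ}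
    {P : MvPolynomial (JV n r) ℂ} (hP : HasWtB e M P) {z : ℂ} (hz : ∀ s, D.w s z 0 ≠ 0) :
    QMB D e M P z = (∏ s, D.w s z 0 ^ M s) * eval (jetf r (D.f e) z) P := by
  unfold QMB
  rw [eval_eq', Finset.mul_sum]
  refine Finset.sum_congr rfl fun μ hμ => ?_
  have h0 := prod_wtb e μ (fun s => D.w s z 0)
  have h1 : ∏ p : JV n r, jetf r (D.f e) z p ^ μ p =
      (∏ p : JV n r, eta (D.w (e.symm p.1).1) 0 (e.symm p.1).2 (p.2 : ℕ) z ^ μ p) /
        ∏ s, D.w s z 0 ^ wtb e s μ := by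
    rw [h0, ← Finset.prod_div_distrib]
    refine Finset.prod_congr rfl fun p _ => ?_
    have h2 := iteratedDeriv_ch (D.hw (e.symm p.1).1).diff 0 (e.symm p.1).2 (p.2 : ℕ)
      (hz (e.symm p.1).1)
    have h3 : jetf r (D.f e) z p = eta (D.w (e.symm p.1).1) 0 (e.symm p.1).2 (p.2 : ℕ) z /
        D.w (e.symm p.1).1 z 0 ^ ((p.2 : ℕ) + 1) := h2
    rw [h3, div_pow, ← pow_mul]
  rw [h1]
  have h2 : ∏ s, D.w s z 0 ^ M s =
      (∏ s, D.w s z 0 ^ (M s - wtb e s μ)) * ∏ s, D.w s z 0 ^ wtb e s μ := by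
    rw [← Finset.prod_mul_distrib]
    refine Finset.prod_congr rfl fun s _ => ?_
    rw [← pow_add, Nat.sub_add_cancel (hP s μ hμ)]
  rw [h2]
  have h3 : ∏ s, D.w s z 0 ^ wtb e s μ ≠ 0 :=
    Finset.prod_ne_zero_iff.mpr fun s _ => pow_ne_zero _ (hz s)
  field_simp

end Pool.Agent.H49R
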