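import Pool.Agent.Lib.H49R.P1
import Pool.Agent.Lib.H49R.A1
import Pool.Agent.Lib.H49D.P2

set_option autoImplicit false

/-!
The growth of the operator.
-/

open MvPolynomial Real MeasureTheory

namespace Pool.Agent.H49R

open Pool.Agent.H89T Pool.Agent.H78G Pool.Agent.H67T Pool.Agent.H53Y Pool.Agent.H49D Pool.Agent.H53R

variable {β : Type} [Fintype β] [DecidableEq β] {m : β → ℕ} {ι : Type} [Fintype ι]
variable {sb : ι → β} {dg : ι → ℕ} {n r : ℕ}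

/-- The value of a polynomial of multi-weight `≤ M` at a jet bounded in every block. -/
theorem norm_eval_leB (e : Co m ≃ Fin n) {M : β → ℕ} {P : MvPolynomial (JV n r) ℂ}
    (hP : HasWtB e M P) :
    ∃ C : ℝ, 1 ≤ C ∧ ∀ (ξ : JV n r → ℂ) (x : β → ℝ), (∀ s, 1 ≤ x s) →
      (∀ p, ‖ξ p‖ ≤ x (e.symm p.1).1) → ‖eval ξ P‖ ≤ C * ∏ s, x s ^ M s := by
  refine ⟨1 + ∑ μ ∈ P.support, ‖P.coeff μ‖,
    le_add_of_nonneg_right (Finset.sum_nonneg fun _ _ => norm_nonneg _), fun ξ x hx hξ => ?_⟩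
  have hX : 0 ≤ ∏ s, x s ^ M s :=
    Finset.prod_nonneg fun s _ => pow_nonneg (zero_le_one.trans (hx s)) _
  have h1 : ∀ μ ∈ P.support, ‖P.coeff μ * ∏ p, ξ p ^ μ p‖ ≤ ‖P.coeff μ‖ * ∏ s, x s ^ M s := by
    intro μ hμ
    rw [norm_mul]
    refine mul_le_mul_of_nonneg_left ?_ (norm_nonneg _)
    calc ‖∏ p, ξ p ^ μ p‖ = ∏ p, ‖ξ p‖ ^ μ p := by
          rw [norm_prod]
          exact Finset.prod_congr rfl fun p _ => norm_pow _ _
      _ ≤ ∏ p : JV n r, x (e.symm p.1).1 ^ (((p.2 : ℕ) + 1) * μ p) := by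
          refine Finset.prod_le_prod (fun p _ => pow_nonneg (norm_nonneg _) _) fun p _ => ?_
          refine (pow_le_pow_left₀ (norm_nonneg _) (hξ p) _).trans ?_
          refine pow_le_pow_right₀ (hx _) ?_
          exact Nat.le_mul_of_pos_left _ (Nat.succ_pos _)
      _ = ∏ s, x s ^ wtb e s μ := (prod_wtb e μ x).symm
      _ ≤ ∏ s, x s ^ M s := by
          refine Finset.prod_le_prod (fun s _ => pow_nonneg (zero_le_one.trans (hx s)) _)
            fun s _ => ?_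
          exact pow_le_pow_right₀ (hx s) (hP s μ hμ)
  rw [eval_eq', add_mul, one_mul, Finset.sum_mul]
  exact ((norm_sum_le _ _).trans (Finset.sum_le_sum h1)).trans (le_add_of_nonneg_left hX)

theorem QMB_le (D : CurveW m ι sb dg) (e : Co m ≃ Fin n) {M : β → ℕ}
    {P : MvPolynomial (JV n r) ℂ} (hP : HasWtB e M P) :
    ∃ C : ℝ, 1 ≤ C ∧ ∀ z, (∀ s j, D.w s z j ≠ 0) →
      ‖QMB D e M P z‖ ≤ C * ∏ s,
        (LamG (D.w s) (fun _ : Fin 0 => (0 : Fin (m s + 1) → ℂ)) r z * ‖D.w s z‖) ^ M s := by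
  obtain ⟨C, hC, h⟩ := norm_eval_leB e hP
  refine ⟨C, hC, fun z hz => ?_⟩
  set Λ : β → ℝ := fun s => LamG (D.w s) (fun _ : Fin 0 => (0 : Fin (m s + 1) → ℂ)) r z with hΛ
  set S : β → ℝ := fun s => ‖D.w s z‖ / ‖D.w s z 0‖ with hS
  have hΛ1 : ∀ s, 1 ≤ Λ s := fun s => one_le_LamG _ _ _ _
  have hS1 : ∀ s, 1 ≤ S s := fun s => norm_coord_pos _ _ _ (hz s 0)
  have hj : ∀ p, ‖jetf r (D.f e) z p‖ ≤ Λ (e.symm p.1).1 * S (e.symm p.1).1 := by
    intro p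
    exact D2_norm_jetf_le (D.w (e.symm p.1).1)
        (fun _ : Fin 0 => (0 : Fin (m (e.symm p.1).1 + 1) → ℂ)) le_rfl 0 z (hz _)
        ((e.symm p.1).2, p.2)
  have h1 := h (jetf r (D.f e) z) (fun s => Λ s * S s)
    (fun s => one_le_mul_of_one_le_of_one_le (hΛ1 s) (hS1 s)) hj
  rw [QMB_eq D e hP (fun s => hz s 0), norm_mul, norm_prod]
  have hw0 : ∀ s, 0 < ‖D.w s z 0‖ := fun s => norm_pos_iff.mpr (hz s 0)
  have hp0 : 0 ≤ ∏ s, ‖D.w s z 0 ^ M s‖ := Finset.prod_nonneg fun s _ => norm_nonneg _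
  calc (∏ s, ‖D.w s z 0 ^ M s‖) * ‖eval (jetf r (D.f e) z) P‖
      ≤ (∏ s, ‖D.w s z 0 ^ M s‖) * (C * ∏ s, (Λ s * S s) ^ M s) :=
        mul_le_mul_of_nonneg_left h1 hp0
    _ = C * ∏ s, (Λ s * ‖D.w s z‖) ^ M s := by
        rw [mul_left_comm, ← Finset.prod_mul_distrib]
        congr 1
        refine Finset.prod_congr rfl fun s _ => ?_
        rw [norm_pow, ← mul_pow]
        congr 1
        rw [hS]
        field_simp [(hw0 s).ne']

theorem aux_QMB [Nonempty β] (D : CurveW m ι sb dg) (e : Co m ≃ Fin n) {M : β → ℕ}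
    {P : MvPolynomial (JV n r) ℂ} (hP : HasWtB e M P)
    (h0 : ∃ z, (∀ s, D.w s z 0 ≠ 0) ∧ eval (jetf r (D.f e) z) P ≠ 0) :
    AuxP D.w (QMB D e M P) (fun _ => 1) (fun _ => 0) M := by
  obtain ⟨C, hC, h⟩ := QMB_le D e hP
  have hd := QMB_diff D e M P
  have hne : ∃ z, QMB D e M P z ≠ 0 := by
    obtain ⟨z, hz, hz'⟩ := h0
    refine ⟨z, ?_⟩
    rw [QMB_eq D e hP hz]
    exact mul_ne_zero (Finset.prod_ne_zero_iff.mpr fun s _ => pow_ne_zero _ (hz s)) hz'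
  have hwd : Differentiable ℂ fun z => ∏ s, ∏ j, D.w s z j :=
    Differentiable.fun_finsetProd fun s _ =>
      Differentiable.fun_finsetProd fun j _ => (D.hw s).diff j
  have hwne : ∃ z, ∏ s, ∏ j, D.w s z j ≠ 0 :=
    exists_prod_ne Finset.univ
      (fun s _ => Differentiable.fun_finsetProd fun j _ => (D.hw s).diff j)
      (fun s _ => exists_prod_ne Finset.univ (fun j _ => (D.hw s).diff j)
        (fun j _ => D.hw0 s j))
  refine ⟨⟨hd, hne⟩, ⟨differentiable_const _, 0, one_ne_zero⟩,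
    fun z => QMB D e M P z * ∏ s, ∏ j, D.w s z j,
    fun z => log C + ∑ s, (M s : ℝ) *
      log (LamG (D.w s) (fun _ : Fin 0 => (0 : Fin (m s + 1) → ℂ)) r z),
    hd.fun_mul hwd, exists_mul_ne hd hne hwd hwne,
    (smallP_const _).add (SmallP.sum Finset.univ fun s _ => SmallP.smul (M s) (Small_toP (s := s)
      (small_LamG (e := 1) (D.hw s) (D.hw s).diff (D.hw0 s)
        ⟨1, fun z => by rw [pow_one, one_mul]⟩ (fun i => i.elim0) r))), fun z hz => ?_⟩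
  rw [mul_ne_zero_iff] at hz
  obtain ⟨hz1, hz2⟩ := hz
  have hz3 : ∀ s j, D.w s z j ≠ 0 := fun s j =>
    Finset.prod_ne_zero_iff.mp (Finset.prod_ne_zero_iff.mp hz2 s (Finset.mem_univ s)) j
      (Finset.mem_univ j)
  have h1 := h z hz3
  have hw : ∀ s, 0 < ‖D.w s z‖ := fun s =>
    lt_of_lt_of_le (norm_pos_iff.mpr (hz3 s 0)) (norm_le_pi_norm (D.w s z) 0)
  have hL : ∀ s, 0 < LamG (D.w s) (fun _ : Fin 0 => (0 : Fin (m s + 1) → ℂ)) r z := fun s =>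
    zero_lt_one.trans_le (one_le_LamG _ _ _ _)
  have hC0 : 0 < C := zero_lt_one.trans_le hC
  have hP1 : ∀ s, (0 : ℝ) <
      (LamG (D.w s) (fun _ : Fin 0 => (0 : Fin (m s + 1) → ℂ)) r z * ‖D.w s z‖) ^ M s :=
    fun s => pow_pos (mul_pos (hL s) (hw s)) _
  have h2 := Real.log_le_log (norm_pos_iff.mpr hz1) h1
  rw [Real.log_mul hC0.ne' (Finset.prod_pos fun s _ => hP1 s).ne',
    Real.log_prod (fun s _ => (hP1 s).ne')] at h2
  have h3 : ∑ s, log ((LamG (D.w s) (fun _ : Fin 0 => (0 : Fin (m s + 1) → ℂ)) r z *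
      ‖D.w s z‖) ^ M s) =
      ∑ s, (M s : ℝ) * log (LamG (D.w s) (fun _ : Fin 0 => (0 : Fin (m s + 1) → ℂ)) r z) +
        ∑ s, (M s : ℝ) * log ‖D.w s z‖ := by
    rw [← Finset.sum_add_distrib]
    refine Finset.sum_congr rfl fun s _ => ?_
    rw [Real.log_pow, Real.log_mul (hL s).ne' (hw s).ne', mul_add]
  rw [h3] at h2
  simp only [Nat.cast_zero, zero_mul, Finset.sum_const_zero, norm_one, Real.log_one]
  linarith

end Pool.Agent.H49R
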