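import Pool.Agent.Lib.H49R.P1
import Pool.Agent.Lib.H49D.P3

set_option autoImplicit false

/-!
The order of the operator at crossings and tangencies, on the curves.
-/

open MvPolynomial Real MeasureTheory

namespace Pool.Agent.H49R

open Pool.Agent.H89T Pool.Agent.H78G Pool.Agent.H67T Pool.Agent.H53Y Pool.Agent.H49D Pool.Agent.H53R

variable {β : Type} [Fintype β] [DecidableEq β] {m : β → ℕ} {ι : Type} [Fintype ι]
variable {sb : ι → β} {dg : ι → ℕ} {n r : ℕ}

theorem fv_eqP (D : CurveW m ι sb dg) (e : Co m ≃ Fin n) (i : ι) {z : ℂ}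
    (hz : D.w (sb i) z 0 ≠ 0) :
    fv e D.a (D.f e z) i = D.φ i z / D.w (sb i) z 0 ^ dg i := by
  have h0 : ∀ x : Co m, D.f e z (e x) = ch 0 (D.w x.1) z x.2 := by
    intro x
    exact congrArg (fun x : Co m => ch 0 (D.w x.1) z x.2) (e.symm_apply_apply x)
  have h1 : bx e (D.f e z) (sb i) = fun b => D.w (sb i) z ((0 : Fin (m (sb i) + 1)).succAbove b) / D.w (sb i) z 0 := by
    funext b
    exact h0 ⟨sb i, b⟩
  have h2 : fv e D.a (D.f e z) i = ev (cfF (dg i) 0 (D.F i)) (bx e (D.f e z) (sb i)) := rfl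
  rw [h2, h1, ev_cf 0 (D.hF i) hz]
  rfl

theorem order_QMB [DecidableEq ι] (D : CurveW m ι sb dg) (e : Co m ≃ Fin n) {M : β → ℕ}
    {P : MvPolynomial (JV n r) ℂ} (hr : 1 ≤ r) (hP : HasWtB e M P) (hPG : PropG e D.a r P) {z : ℂ}
    (hz : ∀ s, D.w s z 0 ≠ 0)
    (h : (∃ i, 2 ≤ analyticOrderAt (D.φ i) z) ∨
      ∃ i i', i ≠ i' ∧ D.φ i z = 0 ∧ D.φ i' z = 0) :
    (r : ℕ∞) ≤ analyticOrderAt (QMB D e M P) z := by
  classical
  have hf : ∀ b, AnalyticAt ℂ (fun w => D.f e w b) z := fun b =>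
    analyticAt_ch (D.hw (e.symm b).1).diff 0 (hz _) (e.symm b).2
  have hnear : ∀ᶠ w in nhds z, ∀ s, D.w s w 0 ≠ 0 :=
    Filter.eventually_all.2 fun s =>
      ((D.hw s).diff 0).continuous.continuousAt.eventually_ne (hz s)
  have hφ : ∀ i, AnalyticAt ℂ (D.φ i) z := fun i =>
    analyticAt_eval (D.F i) fun j => ((D.hw (sb i)).diff j).analyticAt z
  have h' : (∃ i, 2 ≤ analyticOrderAt (fun w => fv e D.a (D.f e w) i) z) ∨
      ∃ i i', i ≠ i' ∧ fv e D.a (D.f e z) i = 0 ∧ fv e D.a (D.f e z) i' = 0 := by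
    rcases h with ⟨i, hi⟩ | ⟨i, i', hne, h1, h2⟩
    · left
      refine ⟨i, ?_⟩
      have h1 : (fun w => fv e D.a (D.f e w) i) =ᶠ[nhds z]
          fun w => D.φ i w * (D.w (sb i) w 0 ^ dg i)⁻¹ := by
        filter_upwards [hnear] with w hw
        rw [fv_eqP D e i (hw (sb i)), div_eq_mul_inv]
      rw [analyticOrderAt_congr h1]
      exact le_order_mul hi (hφ i)
        (((((D.hw (sb i)).diff 0).analyticAt z).pow (dg i)).inv (pow_ne_zero _ (hz (sb i))))
    · right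
      refine ⟨i, i', hne, ?_, ?_⟩
      · rw [fv_eqP D e i (hz (sb i)), h1, zero_div]
      · rw [fv_eqP D e i' (hz (sb i')), h2, zero_div]
  have h1 := order_propG e hr hPG hf h'
  have h2 : QMB D e M P =ᶠ[nhds z] fun w => eval (jetf r (D.f e) w) P * ∏ s, D.w s w 0 ^ M s := by
    filter_upwards [hnear] with w hw
    rw [QMB_eq D e hP hw, mul_comm]
  rw [analyticOrderAt_congr h2]
  refine le_order_mul h1 ?_ ?_
  · exact analyticAt_eval P fun p => analyticAt_jetf r hf p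
  · exact Finset.analyticAt_fun_prod _ fun s _ => (((D.hw s).diff 0).analyticAt z).pow (M s)

end Pool.Agent.H49R
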