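import Pool.Agent.Lib.H49R.W1
import Pool.Agent.Lib.H49D.W2

set_option autoImplicit false

/-!
The auxiliary function of one small block: the Wronskian.
-/

open MvPolynomial Real MeasureTheory

namespace Pool.Agent.H49R

open Pool.Agent.H89T Pool.Agent.H78G Pool.Agent.H67T Pool.Agent.H53Y Pool.Agent.H49D Pool.Agent.H53R

theorem exists_smallP {β : Type} [Fintype β] [DecidableEq β] {m : β → ℕ} {ι : Type} [Fintype ι]
    {sb : ι → β} {dg : ι → ℕ} (D : CurveW m ι sb dg) (s : β) (h1 : ∀ i, sb i = s → dg i = 1)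
    (hg : GenPos (D.θ s))
    (hc : (∃ i, sb i = s) → m s + 1 ≤ Nat.card {i : ι // sb i = s})
    (hW : ∃ z, Wr (D.w s) z ≠ 0) :
    ∃ (W : ℂ → ℂ) (b : ℕ), b ≤ m s + 1 ∧
      AuxP D.w W (fun z => ∏ i ∈ Finset.univ.filter (fun i => sb i = s), D.φ i z)
        (fun s' => if s' = s then (Finset.univ.filter (fun i => sb i = s)).card else 0)
        (fun s' => if s' = s then b else 0) ∧
      ∀ (z : ℂ) (ν : ι → ℕ), (∀ i, (ν i : ℕ∞) ≤ analyticOrderAt (D.φ i) z) →
        ((∑ i ∈ Finset.univ.filter (fun i => sb i = s), (ν i - m s) : ℕ) : ℕ∞) ≤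
          analyticOrderAt W z := by
  by_cases hex : ∃ i, sb i = s
  · obtain ⟨D', hy', hθ'⟩ : ∃ D' : CurveG (m s) {i : ι // sb i = s}, D'.y = D.w s ∧ D'.θ = D.θ s :=
      ⟨{  y := D.w s
          θ := D.θ s
          hy := D.hw s
          hy0 := D.hw0 s
          hθ0 := fun x => by
            obtain ⟨z, hz⟩ := D.hF0 x.1
            exact ⟨z, by rw [lin_θP D s x (h1 x.1 x.2) z]; exact hz⟩
          gen := hg
          card := by
            have := hc hex
            rwa [Nat.card_eq_fintype_card] at this }, rfl, rfl⟩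
    have hcard : Fintype.card {i : ι // sb i = s} = (Finset.univ.filter fun i => sb i = s).card :=
      Fintype.card_subtype _
    have hG : Differentiable ℂ fun z => ∏ i ∈ Finset.univ.filter (fun i => sb i = s), D.φ i z :=
      Differentiable.fun_finsetProd fun i _ => φ_diffP D i
    have hG0 : ∃ z, ∏ i ∈ Finset.univ.filter (fun i => sb i = s), D.φ i z ≠ 0 :=
      exists_prod_ne _ (fun i _ => φ_diffP D i) fun i _ => D.hF0 i
    have hw : Differentiable ℂ fun z => ∏ j, D.w s z j :=
      Differentiable.fun_finsetProd fun j _ => (D.hw s).diff j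
    have hw0 : ∃ z, ∏ j, D.w s z j ≠ 0 :=
      exists_prod_ne _ (fun j _ => (D.hw s).diff j) fun j _ => D.hw0 s j
    have hprod : ∀ z, ∏ x : {i : ι // sb i = s}, ‖lin (D.θ s x) (D.w s z)‖ =
        ‖∏ i ∈ Finset.univ.filter (fun i => sb i = s), D.φ i z‖ := by
      intro z
      rw [norm_prod, Finset.prod_subtype (Finset.univ.filter fun i => sb i = s) (p := fun i => sb i = s)
        (fun i => by simp)]
      exact Finset.prod_congr rfl fun x _ => by rw [lin_θP D s x (h1 x.1 x.2) z]
    obtain ⟨C, hC0, hC⟩ := cartan_Wr D'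
    rw [hy', hθ'] at hC
    refine ⟨Wr (D.w s), m s + 1, le_refl _, ?_, ?_⟩
    · have h2 : Aux (D.w s) (Wr (D.w s))
          (fun z => ∏ i ∈ Finset.univ.filter (fun i => sb i = s), D.φ i z)
          (1 * (Finset.univ.filter (fun i => sb i = s)).card) (1 * (m s + 1)) := by
        refine aux_of_bound (w := D.w s) (G₀ := fun z => (∏ j, D.w s z j) *
          ∏ i ∈ Finset.univ.filter (fun i => sb i = s), D.φ i z)
          (Λ := LamG (D.w s) (D.θ s) (m s))
          (q := m s + 1) (C := C) (D.hw s) (Wr_diff (D.hw s).diff) hW hG hG0 (hw.fun_mul hG)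
          (exists_mul_ne hw hw0 hG hG0)
          ⟨1, fun z => by rw [pow_one, one_mul]⟩ ⟨1, one_pos, fun z => by rw [pow_one, one_mul]⟩
          (one_le_LamG _ _ _)
          (small_LamG (e := 1) (D.hw s) (D.hw s).diff (D.hw0 s)
            ⟨1, fun z => by rw [pow_one, one_mul]⟩ (fun x => ?_) (m s)) fun z hz => ?_
        · obtain ⟨z, hz⟩ := D.hF0 x.1
          exact ⟨z, by rw [lin_θP D s x (h1 x.1 x.2) z]; exact hz⟩
        · have hz1 := left_ne_zero_of_mul hz
          have hz2 := right_ne_zero_of_mul hz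
          rw [Finset.prod_ne_zero_iff] at hz1 hz2
          have h3 := hC z ⟨fun j => hz1 j (Finset.mem_univ _), fun x => by
            rw [lin_θP D s x (h1 x.1 x.2) z]
            exact hz2 x.1 (Finset.mem_filter.2 ⟨Finset.mem_univ _, x.2⟩)⟩
          rw [hprod, hcard] at h3
          exact h3
      rw [one_mul, one_mul] at h2
      exact Aux_toP h2
    · intro z ν hν
      have h3 := order_Wr D' (z := z) (fun x => ν x.1) (fun x => by
        rw [hy', hθ']
        have h4 : (fun w => lin (D.θ s x) (D.w s w)) = D.φ x.1 :=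
          funext fun w => lin_θP D s x (h1 x.1 x.2) w
        rw [h4]
        exact hν x.1)
      rw [hy'] at h3
      refine le_trans (le_of_eq ?_) h3
      rw [Finset.sum_subtype (Finset.univ.filter fun i => sb i = s) (p := fun i => sb i = s)
        (fun i => by simp)]
  · have hemp : Finset.univ.filter (fun i => sb i = s) = ∅ := by
      rw [Finset.filter_eq_empty_iff]
      intro i _ hi
      exact hex ⟨i, hi⟩
    have : Nonempty β := ⟨s⟩
    refine ⟨fun _ => 1, 0, Nat.zero_le _, ?_, ?_⟩
    · rw [hemp]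
      simp only [Finset.prod_empty, Finset.card_empty, ite_self]
      exact AuxP.one
    · intro z ν _
      rw [hemp, Finset.sum_empty, Nat.cast_zero]
      exact zero_le

end Pool.Agent.H49R
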