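import Pool.Agent.Lib.H53R.IDE
import Pool.Agent.Lib.H49R.A2
import Pool.Agent.Lib.H49R.P2
import Pool.Agent.Lib.H49R.P3
import Pool.Agent.Lib.H49R.B1
import Pool.Agent.Lib.H49R.W2
import Pool.Agent.Lib.H49D.T2
import Pool.Agent.Lib.H49D.T3
import Pool.Agent.Lib.H67T.NJ6

set_option autoImplicit false

/-!
H49R: **module D of H53R** (`D_P`), assembly.
-/

open MvPolynomial Real MeasureTheory

namespace Pool.Agent.H49R

open Pool.Agent.H89T Pool.Agent.H78G Pool.Agent.H67T Pool.Agent.H53Y Pool.Agent.H49D Pool.Agent.H53R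

private theorem sum_splitP {β ι : Type} [Fintype β] [DecidableEq β] [Fintype ι] (sb : ι → β)
    (T : β → Bool) (g : ι → ℕ) :
    (∑ i ∈ Finset.univ.filter (fun i => T (sb i) = false), g i) +
      (∑ s ∈ Finset.univ.filter (fun s => T s = true),
        ∑ i ∈ Finset.univ.filter (fun i => sb i = s), g i) = ∑ i, g i :=
  prod_split (X := Multiplicative ℕ) sb T g

/-- The sum over the blocks of the contributions of the factors. -/
theorem sum_delta {β ι : Type} [Fintype β] [DecidableEq β] [Fintype ι] (sb : ι → β) (g : ι → ℕ)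
    (c : β → ℝ) :
    ∑ s, ((∑ i, (if s = sb i then g i else 0) : ℕ) : ℝ) * c s = ∑ i, (g i : ℝ) * c (sb i) := by
  have h1 : ∀ s, ((∑ i, (if s = sb i then g i else 0) : ℕ) : ℝ) * c s =
      ∑ i, (if s = sb i then (g i : ℝ) * c s else 0) := by
    intro s
    push_cast
    rw [Finset.sum_mul]
    refine Finset.sum_congr rfl fun i _ => ?_
    split_ifs
    · rfl
    · exact zero_mul _
  rw [Finset.sum_congr rfl fun s _ => h1 s, Finset.sum_comm]
  refine Finset.sum_congr rfl fun i _ => ?_
  rw [Finset.sum_ite_eq' Finset.univ (sb i) fun s => (g i : ℝ) * c s, if_pos (Finset.mem_univ _)]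

/-- **Module D.** -/
theorem curveP : D_P := by
  intro β _ _ m ι _ _ sb dg T n r k μ M e D hr hm1 hmr hmμ hz0 hd1 hgen hcard hWr hL dB hB P hP
    hPG hP0
  rcases isEmpty_or_nonempty β with hβ | hβ
  · have hι : IsEmpty ι := ⟨fun i => hβ.elim (sb i)⟩
    refine ⟨0, le_rfl, fun ρ R hρ _ => ?_⟩
    have h1 := N1_nonneg (fun z => ∏ i, D.φ i z) hρ
    have h2 : (0 : ℝ) ≤ r * N1 (fun z => ∏ i, D.φ i z) ρ := mul_nonneg (Nat.cast_nonneg r) h1
    simp only [Finset.univ_eq_empty, Finset.sum_empty, mul_zero, add_zero] at h2 ⊢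
    exact h2
  have hE : ∀ i : ι, T (sb i) = false → ∃ E : ℂ → ℂ,
      AuxP D.w E (D.φ i) (fun s => if s = sb i then dg i else 0)
        (fun s => if s = sb i then (m (sb i) + 1) * dB i else 0) ∧
      ∀ (z : ℂ) (l : ℕ), (l : ℕ∞) ≤ analyticOrderAt (D.φ i) z →
        ((l - m (sb i) : ℕ) : ℕ∞) ≤ analyticOrderAt E z :=
    fun i hi => exists_largeP D i (dB i) (hB i hi)
  choose! E hEA hEo using hE
  have hW : ∀ s : β, T s = true → ∃ (W : ℂ → ℂ) (b : ℕ), b ≤ m s + 1 ∧
      AuxP D.w W (fun z => ∏ i ∈ Finset.univ.filter (fun i => sb i = s), D.φ i z)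
        (fun s' => if s' = s then (Finset.univ.filter (fun i => sb i = s)).card else 0)
        (fun s' => if s' = s then b else 0) ∧
      ∀ (z : ℂ) (ν : ι → ℕ), (∀ i, (ν i : ℕ∞) ≤ analyticOrderAt (D.φ i) z) →
        ((∑ i ∈ Finset.univ.filter (fun i => sb i = s), (ν i - m s) : ℕ) : ℕ∞) ≤
          analyticOrderAt W z :=
    fun s hs => exists_smallP D s (fun i hi => hd1 i (by rw [hi]; exact hs)) (hgen s hs)
      (hcard s hs) (hWr s hs)
  choose! W b hb hWA hWo using hW
  have hmemE : ∀ i ∈ Finset.univ.filter (fun i => T (sb i) = false), T (sb i) = false :=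
    fun i hi => (Finset.mem_filter.mp hi).2
  have hmemW : ∀ s ∈ Finset.univ.filter (fun s => T s = true), T s = true :=
    fun s hs => (Finset.mem_filter.mp hs).2
  have hA1 := (aux_QMB D e hP hP0).pow (Fintype.card β * (k * μ + μ ^ 2))
  have hA2 := (AuxP.prod (Finset.univ.filter (fun i => T (sb i) = false))
    (fun i hi => hEA i (hmemE i hi))).pow r
  have hA3 := (AuxP.prod (Finset.univ.filter (fun s => T s = true))
    (fun s hs => hWA s (hmemW s hs))).pow r
  have hA := hA1.mul (hA2.mul hA3)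
  have hG : (fun z => (1 : ℂ) ^ (Fintype.card β * (k * μ + μ ^ 2)) *
      ((∏ i ∈ Finset.univ.filter (fun i => T (sb i) = false), D.φ i z) ^ r *
        (∏ s ∈ Finset.univ.filter (fun s => T s = true),
          ∏ i ∈ Finset.univ.filter (fun i => sb i = s), D.φ i z) ^ r)) =
      fun z => (∏ i, D.φ i z) ^ r := by
    funext z
    rw [one_pow, one_mul, ← mul_pow, prod_split sb T (fun i => D.φ i z)]
  rw [hG] at hA
  have hκ : (fun s' => Fintype.card β * (k * μ + μ ^ 2) * 0 +
      (r * ∑ i ∈ Finset.univ.filter (fun i => T (sb i) = false),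
          (if s' = sb i then dg i else 0) +
        r * ∑ s ∈ Finset.univ.filter (fun s => T s = true),
          (if s' = s then (Finset.univ.filter (fun i => sb i = s)).card else 0))) =
      fun s' => r * ∑ i, (if s' = sb i then dg i else 0) := by
    funext s'
    rw [mul_zero, zero_add, ← mul_add, ← sum_splitP sb T (fun i => if s' = sb i then dg i else 0)]
    congr 2
    refine Finset.sum_congr rfl (fun s hs => ?_)
    have h1 : ∀ i ∈ Finset.univ.filter (fun i => sb i = s),
        (if s' = sb i then dg i else 0) = if s' = s then 1 else 0 := by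
      intro i hi
      have hsi : sb i = s := (Finset.mem_filter.mp hi).2
      have h2 : dg i = 1 := hd1 i (by rw [hsi]; exact hmemW s hs)
      rw [hsi, h2]
    rw [Finset.sum_congr rfl h1, Finset.sum_const, smul_eq_mul]
    split_ifs
    · rw [mul_one]
    · rw [mul_zero]
  rw [hκ] at hA
  obtain ⟨C, hC, hmain⟩ := core_smallP D.hw hr hA
    (Differentiable.fun_finsetProd fun i _ => φ_diffP D i)
    (fun z k' hk' => order_total sb m T (φ_diffP D) D.hF0 (QMB_diff D e M P)
      (fun i hi => (hEA i hi).1.1) (fun s hs => (hWA s hs).1.1) r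
      (Fintype.card β * (k * μ + μ ^ 2)) z
      (fun h => order_QMB D e hr hP hPG (by
        rcases h with ⟨i, hi⟩ | ⟨i, i', -, hi, -⟩
        · refine hz0 z i ?_
          have han : AnalyticAt ℂ (D.φ i) z := (φ_diffP D i).analyticAt z
          refine han.analyticOrderAt_ne_zero.mp ?_
          intro h0
          rw [h0] at hi
          exact absurd hi (by norm_num)
        · exact hz0 z i hi) h)
      (fun i hi l hl => hEo i hi z l hl) (fun s hs ν hν => hWo s hs z ν hν)
      (fun ν hν => count_DP T D hmμ hd1 hgen hL z ν hν) k' hk')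
  obtain ⟨C', hC', hmain'⟩ := weakenP (S := fun ρ => (r : ℝ) * N1 (fun z => ∏ i, D.φ i z) ρ)
    (B' := fun s' => Fintype.card β * (k * μ + μ ^ 2) * M s' +
      (r * ∑ i, (if s' = sb i then (μ + 1) * dB i else 0) + r * (μ + 1))) D.hw (fun s' => by
    have h1 : ∑ i ∈ Finset.univ.filter (fun i => T (sb i) = false),
        (if s' = sb i then (m (sb i) + 1) * dB i else 0) ≤
        ∑ i, (if s' = sb i then (μ + 1) * dB i else 0) := by
      refine (Finset.sum_le_sum (fun i _ => ?_)).trans
        (Finset.sum_le_sum_of_subset (Finset.filter_subset _ _))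
      split_ifs
      · exact Nat.mul_le_mul_right _ (Nat.add_le_add_right (hmμ _) 1)
      · exact le_rfl
    have h2 : ∑ s ∈ Finset.univ.filter (fun s => T s = true),
        (if s' = s then b s else 0) ≤ μ + 1 := by
      rw [Finset.sum_ite_eq]
      split_ifs with h3
      · exact (hb s' (hmemW s' h3)).trans (Nat.add_le_add_right (hmμ s') 1)
      · exact Nat.zero_le _
    have h3 := Nat.mul_le_mul_left r h1
    have h4 := Nat.mul_le_mul_left r h2
    exact Nat.add_le_add_left (Nat.add_le_add h3 h4) _) hC hmain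
  refine ⟨C', hC', fun ρ R hρ hR => ?_⟩
  have h1 := hmain' ρ R hρ hR
  have e1 : ∑ s, ((r * ∑ i, (if s = sb i then dg i else 0) : ℕ) : ℝ) * chi (D.w s) ρ =
      r * ∑ i, (dg i : ℝ) * chi (D.w (sb i)) ρ := by
    rw [← sum_delta sb dg (fun s => chi (D.w s) ρ), Finset.mul_sum]
    refine Finset.sum_congr rfl fun s _ => ?_
    rw [Nat.cast_mul, mul_assoc]
  have e2 : ∑ s, ((Fintype.card β * (k * μ + μ ^ 2) * M s +
      (r * ∑ i, (if s = sb i then (μ + 1) * dB i else 0) + r * (μ + 1)) : ℕ) : ℝ) *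
        chi (D.w s) ρ =
      ((Fintype.card β * (k * μ + μ ^ 2) : ℕ) : ℝ) * ∑ s, (M s : ℝ) * chi (D.w s) ρ +
        r * ∑ i, (((μ + 1) * dB i : ℕ) : ℝ) * chi (D.w (sb i)) ρ +
        r * ∑ s, ((μ + 1 : ℕ) : ℝ) * chi (D.w s) ρ := by
    rw [← sum_delta sb (fun i => (μ + 1) * dB i) (fun s => chi (D.w s) ρ), Finset.mul_sum,
      Finset.mul_sum, Finset.mul_sum, ← Finset.sum_add_distrib, ← Finset.sum_add_distrib]
    refine Finset.sum_congr rfl fun s _ => ?_
    rw [Nat.cast_add (Fintype.card β * (k * μ + μ ^ 2) * M s), Nat.cast_mul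
      (Fintype.card β * (k * μ + μ ^ 2)), Nat.cast_add (r * _) (r * (μ + 1)), Nat.cast_mul r,
      Nat.cast_mul r]
    ring
  rw [e1, e2] at h1
  linarith

end Pool.Agent.H49R
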