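import Pool.Agent.Lib.H49R.A1
import Pool.Agent.Lib.H49D.W1
import Pool.Agent.Lib.H49D.T1

set_option autoImplicit false

/-!
The linear forms of a small block; counting.
-/

open MvPolynomial Real MeasureTheory

namespace Pool.Agent.H49R

open Pool.Agent.H89T Pool.Agent.H78G Pool.Agent.H67T Pool.Agent.H53Y Pool.Agent.H49D Pool.Agent.H53R

variable {β : Type} {m : β → ℕ} {ι : Type} [Fintype ι] {sb : ι → β} {dg : ι → ℕ}

theorem lin_θP (D : CurveW m ι sb dg) (s : β) (x : {i : ι // sb i = s}) (h1 : dg x.1 = 1) (z : ℂ) :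
    lin (D.θ s x) (D.w s z) = D.φ x.1 z := by
  obtain ⟨i, rfl⟩ := x
  have h2 := D.hF i
  have h1' : dg i = 1 := h1
  rw [h1'] at h2
  show lin (D.θ (sb i) ⟨i, rfl⟩) (D.w (sb i) z) = eval (D.w (sb i) z) (D.F i)
  rw [eval_linear h2]
  rfl

theorem φ_diffP (D : CurveW m ι sb dg) (i : ι) : Differentiable ℂ (D.φ i) :=
  differentiable_eval (D.hw (sb i)).diff (D.F i)

theorem count_DP [Fintype β] [DecidableEq β] (T : β → Bool) {k μ : ℕ} (D : CurveW m ι sb dg)
    (hμ : ∀ s, m s ≤ μ) (h1 : ∀ i, T (sb i) = true → dg i = 1)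
    (hg : ∀ s, T s = true → GenPos (D.θ s))
    (hL : ∀ s, T s = false → ∀ z, Nat.card {i : ι // sb i = s ∧ D.φ i z = 0} ≤ k)
    (z : ℂ) (ν : ι → ℕ) (hν : ∀ i, ν i ≠ 0 → D.φ i z = 0) :
    ∑ i, ν i ≤ ∑ i, (ν i - m (sb i)) + Fintype.card β * (k * μ + μ ^ 2) := by
  classical
  refine count_le sb m hμ ν fun s => ?_
  cases hT : T s with
  | true =>
    have h2 : (Finset.univ.filter fun i => sb i = s ∧ ν i ≠ 0).card ≤ m s := by
      have h3 := (hg s hT).card_le ((D.hw s).ne_zero z)
        (Finset.univ.filter fun x : {i : ι // sb i = s} => ν x.1 ≠ 0) (fun x hx => by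
          rw [lin_θP D s x (h1 x.1 (by rw [x.2]; exact hT)) z]
          exact hν x.1 (Finset.mem_filter.1 hx).2)
      refine le_trans (le_of_eq ?_) h3
      rw [← Finset.card_map (Function.Embedding.subtype fun i : ι => sb i = s)]
      congr 1
      ext i
      simp only [Finset.mem_filter, Finset.mem_univ, true_and, Finset.mem_map, Function.Embedding.coe_subtype,
        Subtype.exists, exists_and_left, exists_prop, exists_eq_right_right]
      tauto
    calc _ ≤ m s * μ := Nat.mul_le_mul_right _ h2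
      _ ≤ μ * μ := Nat.mul_le_mul_right _ (hμ s)
      _ ≤ k * μ + μ ^ 2 := by rw [pow_two]; exact Nat.le_add_left _ _
  | false =>
    have h2 := hL s hT z
    rw [Nat.card_eq_fintype_card, Fintype.card_subtype] at h2
    have h3 : (Finset.univ.filter fun i => sb i = s ∧ ν i ≠ 0).card ≤ k := by
      refine le_trans (Finset.card_le_card fun i hi => ?_) h2
      rw [Finset.mem_filter] at hi ⊢
      exact ⟨hi.1, hi.2.1, hν i hi.2.2⟩
    calc _ ≤ k * μ := Nat.mul_le_mul_right _ h3
      _ ≤ k * μ + μ ^ 2 := Nat.le_add_right _ _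

end Pool.Agent.H49R
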